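import Pool.Agent.Helper814.Thue

set_option autoImplicit false

/-!
# The fractional walk-nonrepetitive chromatic number of paths

For the path with five vertices (four edges) the value is `3`, and for every path with at least six
vertices it is `4`.

Lower bound `4`: in a `p`-tuple walk-nonrepetitive `q`-colouring the sets of three consecutive
vertices are pairwise disjoint. If `q < 4 p`, then the sets of `v_i` and `v_{i+3}` both lie in the
complement of the sets of `v_{i+1}` and `v_{i+2}`, which has less than `2 p` elements, so they meet;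
hence the path `v_1 ... v_6` carries a repetition. Upper bound `4`: insert a fourth letter after
every second letter of a squarefree word over three letters.
-/

namespace Pool.Agent.Results.MP_c566a2_co.PathValues

/-- `c` is a `p`-tuple walk-nonrepetitive `q`-colouring of `G`: every vertex gets a set of `p`
colours out of `q`, and for every walk `w 0, ..., w (2 l - 1)` (with `l ≥ 1`; only these values of
`w` matter) which is not boring, and every choice of colours `a i ∈ c (w i)`, the sequence
`a 0, ..., a (2 l - 1)` is not a repetition. -/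
def IsTupleColouring {V : Type} (G : SimpleGraph V) (p q : ℕ) (c : V → Finset (Fin q)) : Prop :=
  (∀ v, (c v).card = p) ∧
    ∀ l : ℕ, 1 ≤ l → ∀ w : ℕ → V, (∀ i, i + 1 < 2 * l → G.Adj (w i) (w (i + 1))) →
      (∃ i < l, w i ≠ w (l + i)) →
        ∀ a : ℕ → Fin q, (∀ i < 2 * l, a i ∈ c (w i)) → ∃ i < l, a i ≠ a (l + i)

/-- The fractional walk-nonrepetitive chromatic number: the infimum of `q / p` over all
`1 ≤ p < q` such that `G` has a `p`-tuple walk-nonrepetitive `q`-colouring. -/
noncomputable def piFW {V : Type} (G : SimpleGraph V) : ℝ :=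
  sInf {x : ℝ | ∃ p q : ℕ, 1 ≤ p ∧ p < q ∧ (∃ c : V → Finset (Fin q), IsTupleColouring G p q c) ∧
    x = (q : ℝ) / (p : ℝ)}

/-! ### Upper bounds -/

theorem ivt_up (W : ℕ → ℤ) : ∀ m : ℕ, (∀ i < m, W (i + 1) = W i + 1 ∨ W (i + 1) = W i - 1) →
    ∀ x : ℤ, W 0 ≤ x → x ≤ W m → ∃ i ≤ m, W i = x := by
  intro m
  induction m with
  | zero =>
    intro _ x h1 h2
    exact ⟨0, le_rfl, by omega⟩
  | succ m ih =>
    intro h x h1 h2
    by_cases h3 : x ≤ W m
    · obtain ⟨i, hi, hx⟩ := ih (fun i hi => h i (by omega)) x h1 h3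
      exact ⟨i, by omega, hx⟩
    · refine ⟨m + 1, le_rfl, ?_⟩
      rcases h m (by omega) with h4 | h4 <;> omega

theorem ivt_down (W : ℕ → ℤ) (m : ℕ) (h : ∀ i < m, W (i + 1) = W i + 1 ∨ W (i + 1) = W i - 1)
    (x : ℤ) (h1 : x ≤ W 0) (h2 : W m ≤ x) : ∃ i ≤ m, W i = x := by
  obtain ⟨i, hi, hx⟩ := ivt_up (fun i => - W i) m (fun i hi => by
    rcases h i hi with h4 | h4 <;> simp only [h4] <;> omega) (-x) (by simpa using h1)
      (by simpa using h2)
  exact ⟨i, hi, by simpa using hx⟩

/-- A squarefree word without palindromes of length three colours a path so that only boring walks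
receive repetitions. -/
theorem boring (f : ℤ → ℕ) (n : ℤ)
    (f1 : ∀ x, 0 ≤ x → x + 1 < n → f x ≠ f (x + 1))
    (f2 : ∀ x, 0 ≤ x → x + 2 < n → f x ≠ f (x + 2))
    (sq : ∀ a s : ℤ, 0 ≤ a → 0 < s → a + 2 * s ≤ n → ∃ x, a ≤ x ∧ x < a + s ∧ f x ≠ f (x + s))
    (l : ℕ) (W : ℕ → ℤ) (h0 : ∀ i < 2 * l, 0 ≤ W i ∧ W i < n)
    (h1 : ∀ i, i + 1 < 2 * l → W (i + 1) = W i + 1 ∨ W (i + 1) = W i - 1)
    (hf : ∀ i < l, f (W i) = f (W (l + i))) : ∀ i < l, W i = W (l + i) := by
  -- adjacent vertices have different colours
  have adj : ∀ x y : ℤ, 0 ≤ x → x < n → 0 ≤ y → y < n → (y = x + 1 ∨ y = x - 1) → f x ≠ f y := by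
    intro x y hx hx' hy hy' h
    rcases h with rfl | rfl
    · exact f1 x hx hy'
    · have := f1 (x - 1) hy (by omega)
      rw [sub_add_cancel] at this
      exact this.symm
  have two : ∀ x y : ℤ, 0 ≤ x → x < n → 0 ≤ y → y < n → (y = x + 2 ∨ y = x - 2) → f x ≠ f y := by
    intro x y hx hx' hy hy' h
    rcases h with rfl | rfl
    · exact f2 x hx hy'
    · have := f2 (x - 2) hy (by omega)
      rw [sub_add_cancel] at this
      exact this.symm
  rcases Nat.eq_zero_or_pos l with rfl | hl
  · intro i hi; omega
  by_cases hl1 : l = 1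
  · subst hl1
    exfalso
    have h2 := h0 0 (by omega)
    have h3 := h0 1 (by omega)
    exact adj _ _ h2.1 h2.2 h3.1 h3.2 (h1 0 (by omega)) (hf 0 (by omega))
  have hl2 : 2 ≤ l := by omega
  -- the turning points of the two halves agree
  have turn : ∀ i, i + 2 < l →
      ((W (i + 2) = W i) ↔ (W (l + (i + 2)) = W (l + i))) := by
    intro i hi
    have a0 := h0 i (by omega)
    have a1 := h0 (i + 2) (by omega)
    have b0 := h0 (l + i) (by omega)
    have b1 := h0 (l + (i + 2)) (by omega)
    have e0 := hf i (by omega)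
    have e1 := hf (i + 2) (by omega)
    have s0 := h1 i (by omega)
    have s1 := h1 (i + 1) (by omega)
    have t0 := h1 (l + i) (by omega)
    have t1 := h1 (l + i + 1) (by omega)
    have t2 : l + i + 1 + 1 = l + (i + 2) := by omega
    rw [t2] at t1
    have s2 : i + 1 + 1 = i + 2 := rfl
    rw [s2] at s1
    constructor
    · intro h
      by_contra hne
      have : f (W (l + i)) ≠ f (W (l + (i + 2))) := by
        apply two _ _ b0.1 b0.2 b1.1 b1.2
        omega
      rw [← e0, ← e1, h] at this
      exact this rfl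
    · intro h
      by_contra hne
      have : f (W i) ≠ f (W (i + 2)) := by
        apply two _ _ a0.1 a0.2 a1.1 a1.2
        omega
      rw [e0, e1, h] at this
      exact this rfl
  have hl0 := h1 0 (by omega)
  have hll := h1 l (by omega)
  have hlast := h1 (l - 1) (by omega)
  have hl' : l - 1 + 1 = l := by omega
  rw [hl'] at hlast
  rw [Nat.zero_add] at hl0
  by_cases hσ : W (l + 1) - W l = W 1 - W 0
  · -- translation
    have tr : ∀ i, i + 1 < l → W (l + i) - W i = W l - W 0 ∧
        W (l + (i + 1)) - W (i + 1) = W l - W 0 := by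
      intro i
      induction i with
      | zero => intro _; refine ⟨by simp, by simp only [Nat.zero_add]; omega⟩
      | succ i ih =>
        intro hi
        have h2 := ih (by omega)
        refine ⟨h2.2, ?_⟩
        have ht := turn i (by omega)
        have s0 := h1 i (by omega)
        have s1 := h1 (i + 1) (by omega)
        have t0 := h1 (l + i) (by omega)
        have t1 := h1 (l + i + 1) (by omega)
        have t2 : l + i + 1 + 1 = l + (i + 2) := by omega
        have t3 : l + i + 1 = l + (i + 1) := by omega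
        rw [t2] at t1
        rw [t3] at t0 t1
        have s2 : i + 1 + 1 = i + 2 := rfl
        rw [s2] at s1 ⊢
        by_cases hh : W (i + 2) = W i
        · have := ht.1 hh
          omega
        · have : ¬ W (l + (i + 2)) = W (l + i) := fun h => hh (ht.2 h)
          omega
    have tr' : ∀ i < l, W (l + i) - W i = W l - W 0 := by
      intro i hi
      by_cases hi1 : i + 1 < l
      · exact (tr i hi1).1
      · have h3 := (tr (i - 1) (by omega)).2
        have h4 : i - 1 + 1 = i := by omega
        rwa [h4] at h3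
    have hst : ∀ i < l - 1, W (i + 1) = W i + 1 ∨ W (i + 1) = W i - 1 :=
      fun i hi => h1 i (by omega)
    rcases lt_trichotomy (W l - W 0) 0 with hs | hs | hs
    · exfalso
      obtain ⟨x, hx1, hx2, hx3⟩ := sq (W 0 - 2 * (W 0 - W l) + 1) (W 0 - W l) (by
        obtain ⟨i, hi, hx⟩ := ivt_down W (l - 1) hst (W 0 - (W 0 - W l) + 1) (by omega) (by omega)
        have h5 := tr' i (by omega)
        have h6 := h0 (l + i) (by omega)
        omega) (by omega) (by
        have := h0 0 (by omega)
        omega)
      obtain ⟨i, hi, hx⟩ := ivt_down W (l - 1) hst (x + (W 0 - W l)) (by omega) (by omega)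
      have h5 := tr' i (by omega)
      apply hx3
      have h6 := hf i (by omega)
      have h7 : W (l + i) = x := by omega
      rw [h7, hx] at h6
      exact h6.symm
    · intro i hi
      have := tr' i hi
      omega
    · exfalso
      obtain ⟨x, hx1, hx2, hx3⟩ := sq (W 0) (W l - W 0) (h0 0 (by omega)).1 hs (by
        obtain ⟨i, hi, hx⟩ := ivt_up W (l - 1) hst (W 0 + (W l - W 0) - 1) (by omega) (by omega)
        have h5 := tr' i (by omega)
        have h6 := h0 (l + i) (by omega)
        omega)
      obtain ⟨i, hi, hx⟩ := ivt_up W (l - 1) hst x hx1 (by omega)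
      have h5 := tr' i (by omega)
      apply hx3
      have h6 := hf i (by omega)
      have h7 : W (l + i) = x + (W l - W 0) := by omega
      rw [h7, hx] at h6
      exact h6
  · -- reflection
    exfalso
    have tr : ∀ i, i + 1 < l → W (l + i) + W i = W l + W 0 ∧
        W (l + (i + 1)) + W (i + 1) = W l + W 0 := by
      intro i
      induction i with
      | zero => intro _; refine ⟨by simp, by simp only [Nat.zero_add]; omega⟩
      | succ i ih =>
        intro hi
        have h2 := ih (by omega)
        refine ⟨h2.2, ?_⟩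
        have ht := turn i (by omega)
        have s0 := h1 i (by omega)
        have s1 := h1 (i + 1) (by omega)
        have t0 := h1 (l + i) (by omega)
        have t1 := h1 (l + i + 1) (by omega)
        have t2 : l + i + 1 + 1 = l + (i + 2) := by omega
        have t3 : l + i + 1 = l + (i + 1) := by omega
        rw [t2] at t1
        rw [t3] at t0 t1
        have s2 : i + 1 + 1 = i + 2 := rfl
        rw [s2] at s1 ⊢
        by_cases hh : W (i + 2) = W i
        · have := ht.1 hh
          omega
        · have : ¬ W (l + (i + 2)) = W (l + i) := fun h => hh (ht.2 h)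
          omega
    have tr' : ∀ i < l, W (l + i) + W i = W l + W 0 := by
      intro i hi
      by_cases hi1 : i + 1 < l
      · exact (tr i hi1).1
      · have h3 := (tr (i - 1) (by omega)).2
        have h4 : i - 1 + 1 = i := by omega
        rwa [h4] at h3
    -- no position is near the centre of the reflection
    have far : ∀ i < l, ¬ (-1 ≤ W l + W 0 - 2 * W i ∧ W l + W 0 - 2 * W i ≤ 1) := by
      intro i hi hc
      have h3 := tr' i hi
      have a0 := h0 i (by omega)
      have b0 := h0 (l + i) (by omega)
      have e0 := hf i hi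
      by_cases hz : W l + W 0 - 2 * W i = 0
      · by_cases hi1 : i + 1 < l
        · have h4 := tr' (i + 1) hi1
          have a1 := h0 (i + 1) (by omega)
          have b1 := h0 (l + (i + 1)) (by omega)
          have s0 := h1 i (by omega)
          exact two _ _ a1.1 a1.2 b1.1 b1.2 (by omega) (hf (i + 1) hi1)
        · have h4 := tr' (i - 1) (by omega)
          have a1 := h0 (i - 1) (by omega)
          have b1 := h0 (l + (i - 1)) (by omega)
          have s0 := h1 (i - 1) (by omega)
          have hii : i - 1 + 1 = i := by omega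
          rw [hii] at s0
          exact two _ _ a1.1 a1.2 b1.1 b1.2 (by omega) (hf (i - 1) (by omega))
      · exact adj _ _ a0.1 a0.2 b0.1 b0.2 (by omega) e0
    have side : ∀ i < l, (2 ≤ W l + W 0 - 2 * W 0 → 2 ≤ W l + W 0 - 2 * W i) ∧
        (W l + W 0 - 2 * W 0 ≤ -2 → W l + W 0 - 2 * W i ≤ -2) := by
      intro i
      induction i with
      | zero => intro _; exact ⟨id, id⟩
      | succ i ih =>
        intro hi
        have h2 := ih (by omega)
        have h3 := far (i + 1) hi
        have h4 := h1 i (by omega)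
        constructor
        · intro h5
          have := h2.1 h5
          omega
        · intro h5
          have := h2.2 h5
          omega
    have h3 := side (l - 1) (by omega)
    have h4 := far 0 (by omega)
    omega

/-- A single-colour version: a colouring of the path by a word as in `boring`. -/
theorem path_colouring (f : ℤ → ℕ) (n q : ℕ) (fq : ∀ x, f x < q)
    (f1 : ∀ x : ℤ, 0 ≤ x → x + 1 < n → f x ≠ f (x + 1))
    (f2 : ∀ x : ℤ, 0 ≤ x → x + 2 < n → f x ≠ f (x + 2))
    (sq : ∀ a s : ℤ, 0 ≤ a → 0 < s → a + 2 * s ≤ n → ∃ x, a ≤ x ∧ x < a + s ∧ f x ≠ f (x + s)) :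
    IsTupleColouring (SimpleGraph.pathGraph n) 1 q
      (fun v => {⟨f (v.1 : ℤ), fq _⟩}) := by
  refine ⟨fun v => Finset.card_singleton _, ?_⟩
  intro l hl w hw hne a ha
  by_contra hcon
  push Not at hcon
  obtain ⟨i, hi, hne⟩ := hne
  apply hne
  have ha' : ∀ i < 2 * l, (a i).1 = f ((w i).1 : ℤ) := by
    intro i hi
    have := ha i hi
    rw [Finset.mem_singleton] at this
    rw [this]
  have key := boring f n f1 f2 sq l (fun i => ((w i).1 : ℤ)) (fun i _ => ⟨by positivity, by
    have := (w i).2
    show ((w i).1 : ℤ) < n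
    exact_mod_cast this⟩) (fun i hi => by
      have := hw i hi
      rw [SimpleGraph.pathGraph_adj] at this
      show ((w (i + 1)).1 : ℤ) = (w i).1 + 1 ∨ ((w (i + 1)).1 : ℤ) = (w i).1 - 1
      omega) (fun i hi => by
      show f ((w i).1 : ℤ) = f ((w (l + i)).1 : ℤ)
      rw [← ha' i (by omega), ← ha' (l + i) (by omega), hcon i hi])
  have h2 := key i hi
  apply Fin.ext
  exact_mod_cast h2

/-- The word: a fourth letter is inserted after every second letter of a squarefree word. -/
def word (x : ℤ) : ℕ :=
  if x % 3 = 2 then 3 else Pool.Agent.Helper814.Thue.F (2 * (x / 3) + x % 3).toNat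

theorem word_lt (x : ℤ) : word x < 4 := by
  unfold word
  split_ifs
  · norm_num
  · have := Pool.Agent.Helper814.Thue.F_lt (2 * (x / 3) + x % 3).toNat
    omega

open Pool.Agent.Helper814.Thue in
theorem word_one (x : ℤ) (hx : 0 ≤ x) : word x ≠ word (x + 1) := by
  unfold word
  have h3 : x % 3 = 0 ∨ x % 3 = 1 ∨ x % 3 = 2 := by omega
  rcases h3 with h | h | h
  · rw [if_neg (by omega), if_neg (by omega)]
    have h1 : (2 * ((x + 1) / 3) + (x + 1) % 3).toNat = (2 * (x / 3) + x % 3).toNat + 1 := by omega
    rw [h1]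
    exact F_ne _
  · rw [if_neg (by omega), if_pos (by omega)]
    exact (F_lt _).ne
  · rw [if_pos h, if_neg (by omega)]
    exact (F_lt _).ne'

open Pool.Agent.Helper814.Thue in
theorem word_two (x : ℤ) (hx : 0 ≤ x) : word x ≠ word (x + 2) := by
  unfold word
  have h3 : x % 3 = 0 ∨ x % 3 = 1 ∨ x % 3 = 2 := by omega
  rcases h3 with h | h | h
  · rw [if_neg (by omega), if_pos (by omega)]
    exact (F_lt _).ne
  · rw [if_neg (by omega), if_neg (by omega)]
    have h1 : (2 * ((x + 2) / 3) + (x + 2) % 3).toNat = (2 * (x / 3) + x % 3).toNat + 1 := by omega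
    rw [h1]
    exact F_ne _
  · rw [if_pos h, if_neg (by omega)]
    exact (F_lt _).ne'

open Pool.Agent.Helper814.Thue in
theorem word_sq (a s : ℤ) (ha : 0 ≤ a) (hs : 0 < s) :
    ∃ x, a ≤ x ∧ x < a + s ∧ word x ≠ word (x + s) := by
  by_contra hcon
  push Not at hcon
  by_cases hs3 : s % 3 = 0
  · -- delete the fourth letter
    obtain ⟨t, rfl⟩ : ∃ t, s = 3 * t := ⟨s / 3, by omega⟩
    -- start of the square in the squarefree word: number of the first letter at or after `a`
    obtain ⟨b, hb, hb'⟩ : ∃ b : ℕ, (b : ℤ) = 2 * (a / 3) + a % 3 ∧ True := ⟨_, Int.toNat_of_nonneg (by omega), trivial⟩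
    obtain ⟨k, hk, hne⟩ := sqfree (2 * t).toNat (by omega) b
    apply hne
    -- the position of letter number `b + k`
    have hpos : ∀ m : ℕ, word (3 * ((m : ℤ) / 2) + (m : ℤ) % 2) = F m := by
      intro m
      unfold word
      rw [if_neg (by omega)]
      congr 1
      omega
    have h1 := hcon (3 * (((b + k : ℕ) : ℤ) / 2) + ((b + k : ℕ) : ℤ) % 2) (by push_cast; omega)
      (by push_cast; omega)
    rw [hpos] at h1
    rw [h1, ← hpos (b + (2 * t).toNat + k)]
    congr 1
    push_cast
    omega
  · -- the fourth letter is at the positions congruent to two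
    have hx : ∃ x, a ≤ x ∧ x < a + s ∧ (x % 3 = 2 ∨ (x + s) % 3 = 2) := by
      have h3 : a % 3 = 0 ∨ a % 3 = 1 ∨ a % 3 = 2 := by omega
      by_cases h2 : s = 1
      · rcases h3 with h | h | h
        · exfalso
          have := hcon a le_rfl (by omega)
          rw [h2] at this
          exact word_one a ha this
        · exact ⟨a, le_rfl, by omega, Or.inr (by omega)⟩
        · exact ⟨a, le_rfl, by omega, Or.inl h⟩
      by_cases h2' : s = 2
      · rcases h3 with h | h | h
        · exact ⟨a, le_rfl, by omega, Or.inr (by omega)⟩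
        · exact ⟨a + 1, by omega, by omega, Or.inl (by omega)⟩
        · exact ⟨a, le_rfl, by omega, Or.inl h⟩
      rcases h3 with h | h | h
      · exact ⟨a + 2, by omega, by omega, Or.inl (by omega)⟩
      · exact ⟨a + 1, by omega, by omega, Or.inl (by omega)⟩
      · exact ⟨a, le_rfl, by omega, Or.inl h⟩
    obtain ⟨x, hx1, hx2, hx3⟩ := hx
    have h4 := hcon x hx1 hx2
    unfold word at h4
    rcases hx3 with h | h
    · rw [if_pos h, if_neg (by omega)] at h4
      exact (F_lt _).ne' h4
    · rw [if_neg (by omega), if_pos h] at h4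
      exact (F_lt _).ne h4

/-! ### Lower bounds -/

theorem disj_adj {V : Type} {G : SimpleGraph V} {p q : ℕ} {c : V → Finset (Fin q)}
    (h : IsTupleColouring G p q c) {u v : V} (huv : G.Adj u v) : Disjoint (c u) (c v) := by
  rw [Finset.disjoint_left]
  intro x hx hx'
  obtain ⟨i, hi, hne⟩ := h.2 1 le_rfl (fun i => if i = 0 then u else v) (by
    intro i hi
    have : i = 0 := by omega
    subst this
    simpa using huv) ⟨0, by norm_num, by simpa using huv.ne⟩ (fun _ => x) (by
    intro i hi
    show x ∈ c (if i = 0 then u else v)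
    split_ifs
    · exact hx
    · exact hx')
  exact hne rfl

theorem disj_two {V : Type} {G : SimpleGraph V} {p q : ℕ} {c : V → Finset (Fin q)} (hp : 1 ≤ p)
    (h : IsTupleColouring G p q c) {u v w : V} (huv : G.Adj u v) (hvw : G.Adj v w) (huw : u ≠ w) :
    Disjoint (c u) (c w) := by
  rw [Finset.disjoint_left]
  intro x hx hx'
  obtain ⟨y, hy⟩ : (c v).Nonempty := by
    rw [← Finset.card_pos, h.1]; exact hp
  obtain ⟨i, hi, hne⟩ := h.2 2 (by norm_num)
    (fun i => if i = 0 then u else if i = 2 then w else v) (by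
      intro i hi
      have : i = 0 ∨ i = 1 ∨ i = 2 := by omega
      rcases this with rfl | rfl | rfl
      · simpa using huv
      · simpa using hvw
      · simpa using hvw.symm) ⟨0, by norm_num, by simpa using huw⟩
    (fun i => if i % 2 = 0 then x else y) (by
      intro i hi
      have : i = 0 ∨ i = 1 ∨ i = 2 ∨ i = 3 := by omega
      rcases this with rfl | rfl | rfl | rfl
      · simpa using hx
      · simpa using hy
      · simpa using hx'
      · simpa using hy)
  apply hne
  have : i = 0 ∨ i = 1 := by omega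
  rcases this with rfl | rfl <;> rfl

section

variable {n p q : ℕ} {c : Fin n → Finset (Fin q)}

theorem path_adj (i : ℕ) (hi : i + 1 < n) :
    (SimpleGraph.pathGraph n).Adj ⟨i, by omega⟩ ⟨i + 1, hi⟩ := by
  rw [SimpleGraph.pathGraph_adj]
  left; rfl

theorem lower_three (hp : 1 ≤ p) (hn : 3 ≤ n)
    (h : IsTupleColouring (SimpleGraph.pathGraph n) p q c) : 3 * p ≤ q := by
  have h01 := disj_adj h (path_adj (n := n) 0 (by omega))
  have h12 := disj_adj h (path_adj (n := n) 1 (by omega))
  have h02 := disj_two hp h (path_adj (n := n) 0 (by omega)) (path_adj (n := n) 1 (by omega))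
    (by intro h; rw [Fin.ext_iff] at h; dsimp only at h; omega)
  have h3 : ((c ⟨0, by omega⟩) ∪ (c ⟨0 + 1, by omega⟩) ∪ (c ⟨1 + 1, by omega⟩)).card ≤ q := by
    have := Finset.card_le_univ ((c ⟨0, by omega⟩) ∪ (c ⟨0 + 1, by omega⟩) ∪ (c ⟨1 + 1, by omega⟩))
    rwa [Fintype.card_fin] at this
  rw [Finset.card_union_of_disjoint, Finset.card_union_of_disjoint h01, h.1, h.1, h.1] at h3
  · omega
  · rw [Finset.disjoint_union_left]
    exact ⟨h02, h12⟩

theorem meet (hp : 1 ≤ p) (hq : q < 4 * p)
    (h : IsTupleColouring (SimpleGraph.pathGraph n) p q c) (i : ℕ) (hi : i + 3 < n) :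
    ∃ x, x ∈ c ⟨i, by omega⟩ ∧ x ∈ c ⟨i + 3, hi⟩ := by
  by_contra hcon
  push Not at hcon
  have h01 := disj_adj h (path_adj (n := n) i (by omega))
  have h12 := disj_adj h (path_adj (n := n) (i + 1) (by omega))
  have h23 := disj_adj h (path_adj (n := n) (i + 2) (by omega))
  have h02 := disj_two hp h (path_adj (n := n) i (by omega))
    (path_adj (n := n) (i + 1) (by omega)) (by intro h; rw [Fin.ext_iff] at h; dsimp only at h; omega)
  have h13 := disj_two hp h (path_adj (n := n) (i + 1) (by omega))
    (path_adj (n := n) (i + 2) (by omega)) (by intro h; rw [Fin.ext_iff] at h; dsimp only at h; omega)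
  have h03 : Disjoint (c ⟨i, by omega⟩) (c ⟨i + 2 + 1, by omega⟩) := by
    rw [Finset.disjoint_left]
    exact fun x hx hx' => hcon x hx hx'
  have h3 : ((c ⟨i, by omega⟩) ∪ (c ⟨i + 1, by omega⟩) ∪ (c ⟨i + 1 + 1, by omega⟩) ∪
      (c ⟨i + 2 + 1, by omega⟩)).card ≤ q := by
    have := Finset.card_le_univ ((c ⟨i, by omega⟩) ∪ (c ⟨i + 1, by omega⟩) ∪
      (c ⟨i + 1 + 1, by omega⟩) ∪ (c ⟨i + 2 + 1, by omega⟩))
    rwa [Fintype.card_fin] at this
  rw [Finset.card_union_of_disjoint, Finset.card_union_of_disjoint,
    Finset.card_union_of_disjoint h01, h.1, h.1, h.1, h.1] at h3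
  · omega
  · rw [Finset.disjoint_union_left]
    exact ⟨h02, h12⟩
  · rw [Finset.disjoint_union_left, Finset.disjoint_union_left]
    exact ⟨⟨h03, h13⟩, h23⟩

theorem lower_four (hp : 1 ≤ p) (hn : 6 ≤ n)
    (h : IsTupleColouring (SimpleGraph.pathGraph n) p q c) : 4 * p ≤ q := by
  by_contra hq
  push Not at hq
  obtain ⟨x0, hx0, hx0'⟩ := meet hp hq h 0 (by omega)
  obtain ⟨x1, hx1, hx1'⟩ := meet hp hq h 1 (by omega)
  obtain ⟨x2, hx2, hx2'⟩ := meet hp hq h 2 (by omega)
  obtain ⟨i, hi, hne⟩ := h.2 3 (by norm_num)
    (fun i => if h : i < n then ⟨i, h⟩ else ⟨0, by omega⟩) (by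
      intro i hi
      have h1 : i < n := by omega
      have h2 : i + 1 < n := by omega
      simp only [h1, h2, dif_pos]
      exact path_adj i h2) ⟨0, by norm_num, by
        have h1 : 0 < n := by omega
        have h2 : 3 + 0 < n := by omega
        simp only [h1, h2, dif_pos]
        intro h; simp [Fin.ext_iff] at h⟩
    (fun i => if i % 3 = 0 then x0 else if i % 3 = 1 then x1 else x2) (by
      intro i hi
      have h1 : i < n := by omega
      simp only [h1, dif_pos]
      have : i = 0 ∨ i = 1 ∨ i = 2 ∨ i = 3 ∨ i = 4 ∨ i = 5 := by omega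
      rcases this with rfl | rfl | rfl | rfl | rfl | rfl
      · simpa using hx0
      · simpa using hx1
      · simpa using hx2
      · simpa using hx0'
      · simpa using hx1'
      · simpa using hx2')
  apply hne
  have : i = 0 ∨ i = 1 ∨ i = 2 := by omega
  rcases this with rfl | rfl | rfl <;> rfl

end

/-- the value of `piFW` from a colouring and a lower bound -/
theorem piFW_eq {V : Type} (G : SimpleGraph V) (k : ℕ) (hk : 1 < k)
    (hup : ∃ c : V → Finset (Fin k), IsTupleColouring G 1 k c)
    (hlow : ∀ (p q : ℕ) (c : V → Finset (Fin q)), 1 ≤ p → IsTupleColouring G p q c → k * p ≤ q) :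
    piFW G = k := by
  unfold piFW
  apply IsLeast.csInf_eq
  constructor
  · exact ⟨1, k, le_rfl, hk, hup, by simp⟩
  · rintro x ⟨p, q, hp, -, ⟨c, hc⟩, rfl⟩
    have h1 := hlow p q c hp hc
    have hp' : (0 : ℝ) < p := by exact_mod_cast hp
    rw [le_div_iff₀ hp']
    exact_mod_cast h1

/-- The fractional walk-nonrepetitive chromatic number of the path with four edges is `3`, and that
of every longer path is `4`. -/
theorem result : piFW (SimpleGraph.pathGraph 5) = 3 ∧
    ∀ n : ℕ, 6 ≤ n → piFW (SimpleGraph.pathGraph n) = 4 := by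
  constructor
  · have := piFW_eq (SimpleGraph.pathGraph 5) 3 (by norm_num)
      ⟨_, path_colouring (fun x => (x % 3).toNat) 5 3 (fun x => by omega)
        (fun x h1 h2 => by intro h3; omega)
        (fun x h1 h2 => by intro h3; omega)
        (fun a s h1 h2 h3 => ⟨a, le_rfl, by omega, by
          intro h4
          have hs : s = 1 ∨ s = 2 := by push_cast at h3; omega
          rcases hs with rfl | rfl
          · omega
          · omega⟩)⟩
      (fun p q c hp hc => lower_three hp (by norm_num) hc)
    exact_mod_cast this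
  · intro n hn
    have := piFW_eq (SimpleGraph.pathGraph n) 4 (by norm_num)
      ⟨_, path_colouring word n 4 word_lt
        (fun x h1 _ => word_one x h1) (fun x h1 _ => word_two x h1)
        (fun a s h1 h2 _ => word_sq a s h1 h2)⟩
      (fun p q c hp hc => lower_four hp hn hc)
    exact_mod_cast this

end Pool.Agent.Results.MP_c566a2_co.PathValues
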